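import Pool.Agent.Lib.MP_144d21_co.X2.QDefs
import Pool.Agent.Lib.MP_144d21_co.XU3.Iface
import Pool.Agent.Lib.MP_144d21_co.XU.H80.Base3

/-!
# X2: the induction for the inequality IQ; XUCORE from IQ (helper86)
-/

set_option autoImplicit false

namespace Pool.Agent.Xu.X2.H86

open Finset Polynomial Pool.Agent.Xu

/-- a 2-connected graph on at most three vertices is complete -/
theorem clique_of_card {V : Type} [Fintype V] [DecidableEq V] {G : SimpleGraph V} {S : Finset V}
    (hT : TwoConn G S) (hc : S.card ≤ 3) : ∀ x ∈ S, ∀ y ∈ S, x ≠ y → G.Adj x y := by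
  have h2 := hT.1
  intro x hx y hy hxy
  rcases Nat.lt_or_ge S.card 3 with h3 | h3
  · have hS : S = {x, y} := by
      symm
      apply Finset.eq_of_subset_of_card_le
      · intro z hz
        rcases Finset.mem_insert.1 hz with rfl | hz
        · exact hx
        · rw [Finset.mem_singleton.1 hz]; exact hy
      · rw [Finset.card_pair hxy]; omega
    obtain ⟨a, ha, b, hb, hbA, hab⟩ := hT.2.1.2 {x} (by simpa using hx) ⟨x, by simp⟩ (by
      intro h
      rw [← h, Finset.card_singleton] at h2
      omega)
    rw [Finset.mem_singleton] at ha hbA
    subst ha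
    rw [hS, Finset.mem_insert, Finset.mem_singleton] at hb
    rcases hb with hb | hb
    · exact absurd hb hbA
    · rw [← hb]; exact hab
  · have hcard : S.card = 3 := by omega
    have h4 : ∃ z ∈ S, z ≠ x ∧ z ≠ y := by
      by_contra hcon
      push Not at hcon
      have h5 : S ⊆ {x, y} := by
        intro z hz
        rw [Finset.mem_insert, Finset.mem_singleton]
        by_cases hzx : z = x
        · exact Or.inl hzx
        · exact Or.inr (hcon z hz hzx)
      have h6 := Finset.card_le_card h5
      rw [Finset.card_pair hxy] at h6
      omega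
    obtain ⟨z, hz, hzx, hzy⟩ := h4
    have hS : S.erase z = {x, y} := by
      symm
      apply Finset.eq_of_subset_of_card_le
      · intro t ht
        rcases Finset.mem_insert.1 ht with rfl | ht
        · exact Finset.mem_erase.2 ⟨hzx.symm, hx⟩
        · rw [Finset.mem_singleton.1 ht]
          exact Finset.mem_erase.2 ⟨hzy.symm, hy⟩
      · rw [Finset.card_pair hxy, Finset.card_erase_of_mem hz]; omega
    obtain ⟨a, ha, b, hb, hbA, hab⟩ := (hT.2.2 z hz).2 {x} (by
      rw [hS]
      intro t ht
      rw [Finset.mem_singleton.1 ht]
      exact Finset.mem_insert_self _ _) ⟨x, by simp⟩ (by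
      intro h
      have := congrArg Finset.card h
      rw [hS, Finset.card_singleton, Finset.card_pair hxy] at this
      omega)
    rw [Finset.mem_singleton] at ha hbA
    subst ha
    rw [hS, Finset.mem_insert, Finset.mem_singleton] at hb
    rcases hb with hb | hb
    · exact absurd hb hbA
    · rw [← hb]; exact hab

theorem iq3 : Iq3S := by
  intro V _ _ G S hT hc
  have hcl := clique_of_card hT hc
  have h2 := hT.1
  refine ⟨?_, fun _ => H80.chordalOn_of_card hc⟩
  rw [H80.card_cols_clique hcl]
  rcases Nat.lt_or_ge S.card 3 with h3 | h3
  · have hcard : S.card = 2 := by omega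
    rw [H80.bet_clique2 hcl hcard, hcard]
    norm_num [Nat.descFactorial]
  · have hcard : S.card = 3 := by omega
    rw [H80.bet_clique3 hcl hcard, hcard]
    norm_num [Nat.descFactorial]

theorem loop (hD : DichS) (hdg : DeggeS) (h2 : Cut2S) (hd3 : Deg3S) (h3 : Cut3S)
    (h4 : Iq4S) : IqS := by
  intro V _ _ G S
  -- induction on the number of vertices, then on the number of missing edges
  have key : ∀ n : ℕ, ∀ m : ℕ, ∀ (G : SimpleGraph V) (S : Finset V), S.card = n →
      Fintype.card (Sym2 V) - ne G S = m → TwoConn G S → (cols G S 4).Nonempty → IQ G S := by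
    intro n
    induction n using Nat.strong_induction_on with
    | _ n ihn =>
      intro m
      induction m using Nat.strong_induction_on with
      | _ m ihm =>
        intro G S hn hm hT hcol
        have hbd : ∀ (G' : SimpleGraph V) (S' : Finset V), ne G' S' ≤ Fintype.card (Sym2 V) :=
          fun G' S' => Finset.card_le_univ _
        have hIH : IHQ G S := by
          intro G' S' hlt hT' hcol'
          rcases hlt with hlt | ⟨he, hlt⟩
          · exact ihn S'.card (by omega) _ G' S' rfl rfl hT' hcol'
          · refine ihm (Fintype.card (Sym2 V) - ne G' S') ?_ G' S' (he.trans hn) rfl hT' hcol'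
            have := hbd G' S'
            omega
        rcases Nat.lt_or_ge S.card 4 with hlt | hge
        · exact iq3 V G S hT (by omega)
        · rcases hD V G S hge hT with hth | ⟨x, y, S1, S2, hxy, hun, hint, hsep, hS1, hS2⟩
          · by_cases hex : ∃ v ∈ S, (nb G S v).card < 4
            · obtain ⟨v, hv, hlt⟩ := hex
              have := hdg V G S v hth hv
              exact hd3 V G S v hth hv (by omega) hcol hIH
            · push Not at hex
              have h5 : 5 ≤ S.card := by
                obtain ⟨v, hv⟩ := hth.2.1.2.1.1
                have h6 := hex v hv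
                have h7 : nb G S v ⊆ S.erase v := by
                  intro w hw
                  rw [mem_nb] at hw
                  exact Finset.mem_erase.2 ⟨hw.2.ne.symm, hw.1⟩
                have h8 := Finset.card_le_card h7
                rw [Finset.card_erase_of_mem hv] at h8
                omega
              by_cases hc3 : ∃ T P Q, Cut3 G S T P Q
              · exact h3 V G S hth hex hc3 hcol hIH
              · exact h4 V G S hth h5 hc3 hcol
          · subst hun
            refine h2 V G S1 S2 x y hT hint hxy hsep ?_ ?_ hcol hIH
            · intro h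
              exact hS2 (Finset.union_eq_right.2 h).symm
            · intro h
              exact hS1 (Finset.union_eq_left.2 h).symm
  intro hT hcol
  exact key S.card _ G S rfl rfl hT hcol

theorem xucore (hIQ : IqS) (hCN : CorenumS) : XucoreS := by
  intro V _ _ G S a0 h2 hgood
  obtain ⟨r0, r1, a, b, -, hchi⟩ := hgood
  obtain ⟨-, -, hcard, -, hbet, hcols, -⟩ := hCN V G S r0 r1 a b h2 hchi
  have hcne : (cols G S 4).Nonempty := by
    rw [← Finset.card_pos, hcols]
    positivity
  refine (hIQ V G S h2 hcne).2 ?_
  rw [hbet, hcols, hcard]
  push_cast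
  rw [pow_add, pow_add]
  ring

theorem xu (hBL : BlockS) (hXC : XucoreS) : XuS := by
  intro V _ _ G a hgood
  exact hBL V G (fun _ => True) a (fun _ _ _ _ => trivial)
    (fun S h2 _ hg => hXC V G S a h2 hg) univ trivial hgood

end Pool.Agent.Xu.X2.H86
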